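import Mathlib

set_option autoImplicit false

namespace Pool.Agent.H59R3

open Cardinal

/-- The matroid of algebraic independence of complex numbers over the rationals. -/
noncomputable abbrev MM : Matroid ℂ := AlgebraicIndependent.matroid ℚ ℂ

theorem mem_cl {S : Set ℂ} {x : ℂ} : x ∈ MM.closure S ↔ IsAlgebraic (Algebra.adjoin ℚ S) x := by
  rw [AlgebraicIndependent.matroid_closure_eq]
  rfl

theorem subset_cl (S : Set ℂ) : S ⊆ MM.closure S :=
  MM.subset_closure S (Set.subset_univ _)

theorem cl_mono {S T : Set ℂ} (h : S ⊆ T) : MM.closure S ⊆ MM.closure T :=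
  MM.closure_subset_closure h

theorem cl_of_alg (S : Set ℂ) {x : ℂ} (hx : IsAlgebraic ℚ x) : x ∈ MM.closure S :=
  mem_cl.2 (hx.extendScalars (algebraMap ℚ (Algebra.adjoin ℚ S)).injective)

theorem cl_add {S : Set ℂ} {x y : ℂ} (hx : x ∈ MM.closure S) (hy : y ∈ MM.closure S) :
    x + y ∈ MM.closure S := mem_cl.2 ((mem_cl.1 hx).add (mem_cl.1 hy))

theorem cl_mul {S : Set ℂ} {x y : ℂ} (hx : x ∈ MM.closure S) (hy : y ∈ MM.closure S) :
    x * y ∈ MM.closure S := mem_cl.2 ((mem_cl.1 hx).mul (mem_cl.1 hy))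

theorem cl_inv {S : Set ℂ} {x : ℂ} (hx : x ∈ MM.closure S) :
    x⁻¹ ∈ MM.closure S := mem_cl.2 ((mem_cl.1 hx).inv)

theorem cl_div {S : Set ℂ} {x y : ℂ} (hx : x ∈ MM.closure S) (hy : y ∈ MM.closure S) :
    x / y ∈ MM.closure S := by rw [div_eq_mul_inv]; exact cl_mul hx (cl_inv hy)

theorem cl_one (S : Set ℂ) : (1 : ℂ) ∈ MM.closure S := cl_of_alg S (isAlgebraic_one)

theorem cl_prod {ι : Type*} {S : Set ℂ} (s : Finset ι) (f : ι → ℂ)
    (h : ∀ i ∈ s, f i ∈ MM.closure S) : ∏ i ∈ s, f i ∈ MM.closure S := by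
  classical
  induction s using Finset.induction_on with
  | empty => simpa using cl_one S
  | insert a s ha ih =>
    rw [Finset.prod_insert ha]
    exact cl_mul (h a (by simp)) (ih fun i hi => h i (by simp [hi]))

theorem cl_of_sq {S : Set ℂ} {x : ℂ} (h : x ^ 2 ∈ MM.closure S) : x ∈ MM.closure S :=
  mem_cl.2 (IsAlgebraic.of_pow two_pos (mem_cl.1 h))

theorem adjoinQ_subset_cl {S T : Set ℂ} (hST : S ⊆ MM.closure T) {x : ℂ}
    (hx : x ∈ IntermediateField.adjoin ℚ S) : x ∈ MM.closure T := by
  induction hx using IntermediateField.adjoin_induction with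
  | mem x hx => exact hST hx
  | algebraMap c => exact cl_of_alg _ (isAlgebraic_algebraMap _)
  | add x y _ _ hx hy => exact cl_add hx hy
  | inv x _ hx => exact cl_inv hx
  | mul x y _ _ hx hy => exact cl_mul hx hy

/-- If all elements of `S` are algebraic over the finite set `T`, then the transcendence degree of
`ℚ(S)` is at most the number of elements of `T`. -/
theorem trdeg_adjoin_le {S : Set ℂ} {T : Finset ℂ} (h : S ⊆ MM.closure (T : Set ℂ)) :
    Algebra.trdeg ℚ (IntermediateField.adjoin ℚ S) ≤ (T.card : Cardinal) := by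
  set F := IntermediateField.adjoin ℚ S with hF
  rw [Algebra.trdeg]
  refine ciSup_le' fun ⟨s, hs⟩ => ?_
  -- `s` is an algebraically independent set in `F`
  have hs' : MM.Indep (F.val '' s) := by
    rw [AlgebraicIndependent.matroid_indep_iff]
    have h2 : AlgebraicIndependent ℚ (F.val ∘ (fun y : s => (y : F))) :=
      (AlgHom.algebraicIndependent_iff F.val F.val.injective).2 hs
    have h3 : AlgebraicIndependent ℚ (fun y : s => F.val (y : F)) := h2
    exact AlgebraicIndependent.image h3
  have hsub : F.val '' s ⊆ MM.closure (T : Set ℂ) := by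
    rintro _ ⟨y, -, rfl⟩
    exact adjoinQ_subset_cl h y.2
  have h1 := hs'.encard_le_eRk_of_subset hsub
  rw [MM.eRk_closure_eq] at h1
  have h2 := h1.trans (MM.eRk_le_encard (T : Set ℂ))
  have hinj : Function.Injective (F.val : F → ℂ) := F.val.injective
  rw [Set.encard_coe_eq_coe_finsetCard, hinj.encard_image] at h2
  have hfin : s.Finite := Set.finite_of_encard_le_coe h2
  have h3 : s.encard = (hfin.toFinset.card : ℕ∞) := hfin.encard_eq_coe_toFinset_card
  rw [h3] at h2
  have h4 : hfin.toFinset.card ≤ T.card := by exact_mod_cast h2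
  have h5 : #s = (hfin.toFinset.card : Cardinal) := by
    rw [← Cardinal.mk_coe_finset]
    simp
  show #s ≤ _
  rw [h5]
  exact_mod_cast h4

end Pool.Agent.H59R3
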