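import Pool.Agent.H59R3.GaussMult
import Pool.Agent.H59R3.TrMat

set_option autoImplicit false

namespace Pool.Agent.H59R3

open Finset

/-- the complex number `Γ(b/m)` -/
noncomputable def gam (b m : ℕ) : ℂ := Complex.Gamma ((b : ℂ) / (m : ℂ))

lemma gam_eq (b m : ℕ) : gam b m = ((Real.Gamma ((b : ℝ) / (m : ℝ)) : ℝ) : ℂ) := by
  unfold gam
  rw [← Complex.Gamma_ofReal]
  push_cast
  rfl

lemma gam_ne {b m : ℕ} (hb : 0 < b) (hm : 0 < m) : gam b m ≠ 0 := by
  rw [gam_eq]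
  have h1 : (0 : ℝ) < b := by exact_mod_cast hb
  have h2 : (0 : ℝ) < m := by exact_mod_cast hm
  exact_mod_cast (Real.Gamma_pos_of_pos (by positivity : (0 : ℝ) < (b : ℝ) / m)).ne'

/-- the set of numbers algebraic over `ℚ(π)` -/
noncomputable def P0 : Set ℂ := MM.closure {(Real.pi : ℂ)}

lemma pi_mem : (Real.pi : ℂ) ∈ P0 := subset_cl _ (by simp)

lemma alg_sin (b m : ℕ) : IsAlgebraic ℚ (Complex.sin (Real.pi * ((b : ℂ) / (m : ℂ)))) := by
  have h := Complex.isAlgebraic_sin_rat_mul_pi ((b : ℚ) / (m : ℚ))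
  have h2 : IsAlgebraic ℤ (Complex.sin (Real.pi * ((b : ℂ) / (m : ℂ)))) := by
    have e : (Real.pi * ((b : ℂ) / (m : ℂ))) = (((b : ℚ) / (m : ℚ) : ℚ) : ℂ) * Real.pi := by
      push_cast; ring
    rw [e]; exact h
  exact (IsFractionRing.isAlgebraic_iff ℤ ℚ ℂ).mp h2

/-- reflection formula -/
lemma gam_refl {b m : ℕ} (hbm : b ≤ m) (hm : 0 < m) :
    gam b m * gam (m - b) m = Real.pi / Complex.sin (Real.pi * ((b : ℂ) / (m : ℂ))) := by
  rw [← Complex.Gamma_mul_Gamma_one_sub]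
  unfold gam
  congr 2
  have : (m : ℂ) ≠ 0 := by exact_mod_cast hm.ne'
  rw [Nat.cast_sub hbm]
  field_simp

lemma gam_refl_mem {b m : ℕ} (hbm : b ≤ m) (hm : 0 < m) : gam b m * gam (m - b) m ∈ P0 := by
  rw [gam_refl hbm hm]
  exact cl_div pi_mem (cl_of_alg _ (alg_sin b m))

lemma gam_self {m : ℕ} (hm : 0 < m) : gam m m = 1 := by
  unfold gam
  have : (m : ℂ) ≠ 0 := by exact_mod_cast hm.ne'
  rw [div_self this, Complex.Gamma_one]

lemma gmC_mem (n : ℕ) (hn : 0 < n) : ((gmC n : ℝ) : ℂ) ∈ P0 := by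
  obtain ⟨m, rfl⟩ : ∃ m, n = m + 1 := ⟨n - 1, by omega⟩
  have e0 : ((gmC (m + 1) : ℝ) : ℂ) = ∏ j ∈ range (m + 1), gam (1 + j) (m + 1) := by
    unfold gmC
    rw [Complex.ofReal_prod]
    refine Finset.prod_congr rfl fun j _ => ?_
    rw [gam_eq]; push_cast; rfl
  rw [e0, Finset.prod_range_succ, show 1 + m = m + 1 by ring, gam_self (by omega), mul_one]
  apply cl_of_sq
  have e1 : (∏ j ∈ range m, gam (1 + j) (m + 1)) =
      ∏ j ∈ range m, gam (m + 1 - (1 + j)) (m + 1) := by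
    rw [← Finset.prod_range_reflect]
    refine Finset.prod_congr rfl fun j hj => ?_
    have := Finset.mem_range.mp hj
    congr 1; omega
  have e2 : (∏ j ∈ range m, gam (1 + j) (m + 1)) ^ 2 =
      ∏ j ∈ range m, (gam (1 + j) (m + 1) * gam (m + 1 - (1 + j)) (m + 1)) := by
    rw [Finset.prod_mul_distrib, ← e1]; ring
  rw [e2]
  refine cl_prod _ _ fun j hj => ?_
  have := Finset.mem_range.mp hj
  exact gam_refl_mem (by omega) (by omega)

lemma rpow_alg (n r f : ℕ) (hn : 0 < n) (hf : 0 < f) :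
    IsAlgebraic ℚ ((((n : ℝ) ^ ((r : ℝ) / f - 1) : ℝ)) : ℂ) := by
  refine IsAlgebraic.of_pow hf ?_
  have hnR : (0 : ℝ) < n := by exact_mod_cast hn
  have e : (((n : ℝ) ^ ((r : ℝ) / f - 1) : ℝ)) ^ f = (n : ℝ) ^ r / (n : ℝ) ^ f := by
    rw [← Real.rpow_natCast, ← Real.rpow_mul hnR.le]
    have : ((r : ℝ) / f - 1) * f = (r : ℝ) - f := by
      have : (f : ℝ) ≠ 0 := by exact_mod_cast hf.ne'
      field_simp
    rw [this, Real.rpow_sub hnR, Real.rpow_natCast, Real.rpow_natCast]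
  have e2 : ((((n : ℝ) ^ ((r : ℝ) / f - 1) : ℝ)) : ℂ) ^ f =
      algebraMap ℚ ℂ ((n : ℚ) ^ r / (n : ℚ) ^ f) := by
    rw [← Complex.ofReal_pow, e]
    simp
  rw [e2]
  exact isAlgebraic_algebraMap _

/-- multiplication formula modulo `P0` -/
lemma gam_mult (n f r : ℕ) (hn : 0 < n) (hf : 0 < f) (hr : 0 < r) :
    ∃ c ∈ P0, c ≠ 0 ∧ ∏ j ∈ range n, gam (r + j * f) (n * f) = c * gam r f := by
  have hnR : (0 : ℝ) < n := by exact_mod_cast hn
  have hfR : (0 : ℝ) < f := by exact_mod_cast hf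
  have hrR : (0 : ℝ) < r := by exact_mod_cast hr
  have h := gauss_mult hn (x := (r : ℝ) / f) (by positivity)
  have hC := gmC_pos hn
  have hp : (0 : ℝ) < (n : ℝ) ^ ((r : ℝ) / f - 1) := Real.rpow_pos_of_pos hnR _
  have e1 : ∏ j ∈ range n, gam (r + j * f) (n * f) =
      ((∏ j ∈ range n, Real.Gamma (((r : ℝ) / f + j) / n) : ℝ) : ℂ) := by
    rw [Complex.ofReal_prod]
    refine Finset.prod_congr rfl fun j _ => ?_
    rw [gam_eq]
    congr 2
    push_cast
    field_simp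
  refine ⟨((gmC n : ℝ) : ℂ) / (((n : ℝ) ^ ((r : ℝ) / f - 1) : ℝ) : ℂ),
    cl_div (gmC_mem n hn) (cl_of_alg _ (rpow_alg n r f hn hf)), ?_, ?_⟩
  · apply div_ne_zero
    · exact_mod_cast hC.ne'
    · exact_mod_cast hp.ne'
  · rw [e1, gam_eq, h]
    rw [← Complex.ofReal_div, ← Complex.ofReal_mul]
    congr 1
    field_simp

/-- product over a residue class -/
noncomputable def Dn (n f : ℕ) (r : ZMod f) : ℂ :=
  ∏ b ∈ (range (n * f)).filter (fun b : ℕ => (b : ZMod f) = r), gam b (n * f)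

lemma Dn_eq (n f : ℕ) [NeZero f] (r : ZMod f) :
    Dn n f r = ∏ j ∈ range n, gam (r.val + j * f) (n * f) := by
  have hf : 0 < f := Nat.pos_of_ne_zero (NeZero.ne f)
  unfold Dn
  symm
  refine Finset.prod_bij (fun j _ => r.val + j * f) ?_ ?_ ?_ ?_
  · intro j hj
    have hj' := Finset.mem_range.mp hj
    have hr := ZMod.val_lt r
    rw [Finset.mem_filter, Finset.mem_range]
    refine ⟨?_, by simp⟩
    calc r.val + j * f < f + j * f := by omega
      _ = (j + 1) * f := by ring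
      _ ≤ n * f := Nat.mul_le_mul_right _ hj'
  · intro i _ j _ h
    have : i * f = j * f := by omega
    exact Nat.eq_of_mul_eq_mul_right hf this
  · intro b hb
    rw [Finset.mem_filter, Finset.mem_range] at hb
    refine ⟨b / f, ?_, ?_⟩
    · rw [Finset.mem_range]
      exact (Nat.div_lt_iff_lt_mul hf).mpr hb.1
    · rw [← hb.2, ZMod.val_natCast]
      exact Nat.mod_add_div' b f
  · intro j _; rfl

lemma Dn_mem (n f : ℕ) [NeZero f] (r : ZMod f) (hn : 0 < n) (hr : r ≠ 0) :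
    ∃ c ∈ P0, c ≠ 0 ∧ Dn n f r = c * gam r.val f := by
  rw [Dn_eq]
  refine gam_mult n f r.val hn (Nat.pos_of_ne_zero (NeZero.ne f)) ?_
  rw [pos_iff_ne_zero, Ne, ZMod.val_eq_zero]
  exact hr

/-- product over a residue class, multiples of `p` removed -/
noncomputable def Pn (p n f : ℕ) (r : ZMod f) : ℂ :=
  ∏ b ∈ (range (n * f)).filter (fun b : ℕ => (b : ZMod f) = r ∧ ¬ p ∣ b), gam b (n * f)

lemma Dn_split (p n f : ℕ) (hp : 0 < p) (hpu : IsUnit (p : ZMod f)) (s : ZMod f) :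
    Dn (p * n) f (p * s) = Pn p (p * n) f (p * s) * Dn n f s := by
  unfold Dn Pn
  rw [← Finset.prod_filter_not_mul_prod_filter
    ((range (p * n * f)).filter (fun b : ℕ => (b : ZMod f) = p * s)) (fun b => p ∣ b)]
  rw [Finset.filter_filter, Finset.filter_filter]
  congr 1
  symm
  refine Finset.prod_bij (fun c _ => p * c) ?_ ?_ ?_ ?_
  · intro c hc
    rw [Finset.mem_filter, Finset.mem_range] at hc ⊢
    refine ⟨?_, ?_, Dvd.intro _ rfl⟩
    · rw [mul_assoc]; exact Nat.mul_lt_mul_of_pos_left hc.1 hp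
    · rw [← hc.2]; push_cast; ring
  · intro c _ d _ h
    exact Nat.eq_of_mul_eq_mul_left hp h
  · intro b hb
    rw [Finset.mem_filter, Finset.mem_range] at hb
    obtain ⟨hb1, hb2, ⟨c, rfl⟩⟩ := hb
    refine ⟨c, ?_, rfl⟩
    rw [Finset.mem_filter, Finset.mem_range]
    refine ⟨?_, ?_⟩
    · rw [mul_assoc] at hb1; exact Nat.lt_of_mul_lt_mul_left hb1
    · push_cast at hb2
      exact hpu.mul_left_cancel hb2
  · intro c _
    unfold gam
    congr 1
    push_cast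
    have : (p : ℂ) ≠ 0 := by exact_mod_cast hp.ne'
    rw [mul_assoc, mul_div_mul_left _ _ this]

lemma Pn_mem (p n f : ℕ) [NeZero f] (hp : 0 < p) (hn : 0 < n) (hpu : IsUnit (p : ZMod f))
    (s : ZMod f) (hs : s ≠ 0) :
    ∃ c ∈ P0, c ≠ 0 ∧ Pn p (p * n) f (p * s) * gam s.val f = c * gam ((p : ZMod f) * s).val f := by
  obtain ⟨c1, h1, h1', e1⟩ := Dn_mem n f s hn hs
  have hps : (p : ZMod f) * s ≠ 0 := by
    intro h
    apply hs
    have : (p : ZMod f) * s = p * 0 := by rw [h, mul_zero]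
    exact hpu.mul_left_cancel this
  obtain ⟨c2, h2, h2', e2⟩ := Dn_mem (p * n) f (p * s) (by positivity) hps
  have h3 := Dn_split p n f hp hpu s
  rw [e1, e2] at h3
  refine ⟨c2 / c1, cl_div h2 h1, div_ne_zero h2' h1', ?_⟩
  rw [div_mul_eq_mul_div, eq_div_iff h1', h3]
  ring

open Classical in
/-- the powers of `p` modulo `f` -/
noncomputable def Hp (p f : ℕ) [NeZero f] : Finset (ZMod f) :=
  Finset.univ.filter (fun r => ∃ k : ℕ, r = (p : ZMod f) ^ k)

lemma mem_Hp {p f : ℕ} [NeZero f] {r : ZMod f} : r ∈ Hp p f ↔ ∃ k : ℕ, r = (p : ZMod f) ^ k := by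
  unfold Hp; simp

lemma Hp_image (p f : ℕ) [NeZero f] (hpu : IsUnit (p : ZMod f)) :
    (Hp p f).image (fun s => (p : ZMod f) * s) = Hp p f := by
  refine Finset.eq_of_subset_of_card_le ?_ ?_
  · intro r hr
    rw [Finset.mem_image] at hr
    obtain ⟨s, hs, rfl⟩ := hr
    obtain ⟨k, rfl⟩ := mem_Hp.mp hs
    exact mem_Hp.mpr ⟨k + 1, by ring⟩
  · rw [Finset.card_image_of_injective]
    intro a b h
    exact hpu.mul_left_cancel h

/-- The key multiplicative relation. -/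
theorem relation (p n f : ℕ) [NeZero f] (hp : 0 < p) (hn : 0 < n) (hf : 1 < f)
    (hpu : IsUnit (p : ZMod f)) :
    (∏ b ∈ (range (p * n * f)).filter (fun b : ℕ => (b : ZMod f) ∈ Hp p f ∧ ¬ p ∣ b),
      gam b (p * n * f)) ∈ P0 := by
  classical
  have : Fact (1 < f) := ⟨hf⟩
  have hne : ∀ s ∈ Hp p f, s ≠ 0 := by
    intro s hs
    obtain ⟨k, rfl⟩ := mem_Hp.mp hs
    exact (hpu.pow k).ne_zero
  have e1 : (∏ b ∈ (range (p * n * f)).filter (fun b : ℕ => (b : ZMod f) ∈ Hp p f ∧ ¬ p ∣ b),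
      gam b (p * n * f)) = ∏ r ∈ Hp p f, Pn p (p * n) f r := by
    rw [← Finset.prod_fiberwise_of_maps_to (t := Hp p f) (g := fun b : ℕ => (b : ZMod f))]
    · refine Finset.prod_congr rfl fun r hr => ?_
      unfold Pn
      rw [Finset.filter_filter]
      refine Finset.prod_congr ?_ fun _ _ => rfl
      ext b
      simp only [Finset.mem_filter, Finset.mem_range]
      constructor
      · rintro ⟨h1, ⟨_, h3⟩, h4⟩
        exact ⟨h1, h4, h3⟩
      · rintro ⟨h1, h2, h3⟩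
        exact ⟨h1, ⟨h2 ▸ hr, h3⟩, h2⟩
    · intro b hb
      rw [Finset.mem_filter] at hb
      exact hb.2.1
  rw [e1]
  have e2 : ∀ φ : ZMod f → ℂ, ∏ r ∈ Hp p f, φ r = ∏ s ∈ Hp p f, φ ((p : ZMod f) * s) := by
    intro φ
    conv_lhs => rw [← Hp_image p f hpu]
    rw [Finset.prod_image]
    intro a _ b _ h
    exact hpu.mul_left_cancel h
  rw [e2]
  choose! c hc hc' hcc using fun (s : ZMod f) (hs : s ≠ 0) => Pn_mem p n f hp hn hpu s hs
  have hf0 : 0 < f := by omega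
  have hgne : ∏ s ∈ Hp p f, gam s.val f ≠ 0 := by
    rw [Finset.prod_ne_zero_iff]
    intro s hs
    refine gam_ne ?_ hf0
    rw [pos_iff_ne_zero, Ne, ZMod.val_eq_zero]
    exact hne s hs
  have e3 : (∏ s ∈ Hp p f, Pn p (p * n) f ((p : ZMod f) * s)) * ∏ s ∈ Hp p f, gam s.val f =
      (∏ s ∈ Hp p f, c s) * ∏ s ∈ Hp p f, gam s.val f := by
    rw [← Finset.prod_mul_distrib]
    conv_rhs => rw [e2 (fun s => gam s.val f), ← Finset.prod_mul_distrib]
    exact Finset.prod_congr rfl fun s hs => hcc s (hne s hs)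
  rw [mul_right_cancel₀ hgne e3]
  exact cl_prod _ _ fun s hs => hc s (hne s hs)

end Pool.Agent.H59R3
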