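import Mathlib

set_option autoImplicit false

namespace Pool.Agent.H59R3

open Real Finset

/-- the normalising constant in the multiplication formula -/
noncomputable def gmC (n : ℕ) : ℝ := ∏ j ∈ range n, Gamma ((1 + j) / n)

lemma gmC_pos {n : ℕ} (hn : 0 < n) : 0 < gmC n := by
  unfold gmC
  refine Finset.prod_pos fun j _ => Gamma_pos_of_pos ?_
  have : (0 : ℝ) < n := by exact_mod_cast hn
  positivity

/-- Gauss' multiplication formula, up to the value of the constant. -/
theorem gauss_mult {n : ℕ} (hn : 0 < n) {x : ℝ} (hx : 0 < x) :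
    Gamma x = (n : ℝ) ^ (x - 1) * (∏ j ∈ range n, Gamma ((x + j) / n)) / gmC n := by
  have hnR : (0 : ℝ) < n := by exact_mod_cast hn
  have hn0 : (n : ℝ) ≠ 0 := hnR.ne'
  have hC := gmC_pos hn
  set f : ℝ → ℝ := fun x => (n : ℝ) ^ (x - 1) * (∏ j ∈ range n, Gamma ((x + j) / n)) / gmC n
    with hf
  have harg : ∀ {y : ℝ}, 0 < y → ∀ j : ℕ, 0 < (y + j) / n := fun {y} hy j => by positivity
  have hprod : ∀ {y : ℝ}, 0 < y → 0 < ∏ j ∈ range n, Gamma ((y + j) / n) := fun {y} hy =>
    Finset.prod_pos fun j _ => Gamma_pos_of_pos (harg hy j)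
  have hpos : ∀ {y : ℝ}, 0 < y → 0 < f y := fun {y} hy => by
    have := hprod hy
    simp only [hf]
    positivity
  have h1 : f 1 = 1 := by
    simp only [hf, sub_self, rpow_zero, one_mul]
    exact div_self hC.ne'
  have hfeq : ∀ {y : ℝ}, 0 < y → f (y + 1) = y * f y := by
    intro y hy
    have e1 : ∏ j ∈ range n, Gamma ((y + 1 + j) / n) =
        (y / n) * ∏ j ∈ range n, Gamma ((y + j) / n) := by
      have e2 : ∏ j ∈ range (n + 1), Gamma ((y + j) / n) =
          (∏ j ∈ range n, Gamma ((y + 1 + j) / n)) * Gamma (y / n) := by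
        rw [Finset.prod_range_succ']
        congr 1
        · refine Finset.prod_congr rfl fun j _ => ?_
          congr 1
          push_cast; ring
        · simp
      rw [Finset.prod_range_succ] at e2
      have e3 : Gamma ((y + n) / n) = (y / n) * Gamma (y / n) := by
        rw [← Gamma_add_one (by positivity)]
        congr 1
        field_simp
      rw [e3] at e2
      have hG : Gamma (y / n) ≠ 0 := (Gamma_pos_of_pos (by positivity)).ne'
      apply mul_right_cancel₀ hG
      rw [← e2]; ring
    have e4 : (n : ℝ) ^ (y + 1 - 1) = n * (n : ℝ) ^ (y - 1) := by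
      rw [show y + 1 - 1 = (y - 1) + 1 by ring, rpow_add hnR, rpow_one]; ring
    simp only [hf]
    rw [e1, e4]
    field_simp
  have hconv : ConvexOn ℝ (Set.Ioi 0) (log ∘ f) := by
    have hlog : Set.EqOn (fun y => ((y - 1) * log n +
        ∑ j ∈ range n, (log ∘ Gamma) ((y + j) / n)) - log (gmC n)) (log ∘ f) (Set.Ioi 0) := by
      intro y hy
      have hy' : 0 < y := hy
      have := hprod hy'
      simp only [Function.comp, hf]
      rw [log_div (by positivity) hC.ne', log_mul (by positivity) this.ne', log_rpow hnR,
        log_prod]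
      intro j _
      exact (Gamma_pos_of_pos (harg hy' j)).ne'
    refine ConvexOn.congr ?_ hlog
    simp only [sub_eq_add_neg (_ : ℝ) (log (gmC n))]
    refine ConvexOn.add_const ?_ _
    refine ConvexOn.add ?_ ?_
    · have : (fun y : ℝ => (y - 1) * log n) = fun y => (log n) * y + (- log n) := by
        ext y; ring
      rw [this]
      refine ConvexOn.add_const ?_ _
      have h2 : ConvexOn ℝ (Set.Ioi (0:ℝ)) (fun y : ℝ => y) := convexOn_id (convex_Ioi 0)
      have hlogn : 0 ≤ log (n : ℝ) := log_nonneg (by exact_mod_cast hn)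
      exact ConvexOn.smul hlogn h2
    · have hsum : ∀ s : Finset ℕ, ConvexOn ℝ (Set.Ioi (0:ℝ))
          (fun y => ∑ j ∈ s, (log ∘ Gamma) ((y + j) / n)) := by
        intro s
        induction s using Finset.induction_on with
        | empty => simpa using convexOn_const (0:ℝ) (convex_Ioi 0)
        | insert j s hj ih =>
          have e : (fun y : ℝ => ∑ i ∈ insert j s, (log ∘ Gamma) ((y + i) / n)) =
              fun y => (log ∘ Gamma) ((y + j) / n) + ∑ i ∈ s, (log ∘ Gamma) ((y + i) / n) := by
            ext y; rw [Finset.sum_insert hj]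
          rw [e]
          refine ConvexOn.add ?_ ih
          have hG := convexOn_log_Gamma
          refine ⟨convex_Ioi 0, ?_⟩
          intro u hu v hv a b ha hb hab
          have hu' : (u + j) / n ∈ Set.Ioi (0:ℝ) := harg hu j
          have hv' : (v + j) / n ∈ Set.Ioi (0:ℝ) := harg hv j
          have := hG.2 hu' hv' ha hb hab
          have e5 : (a • u + b • v + j) / n = a • ((u + j) / n) + b • ((v + j) / n) := by
            simp only [smul_eq_mul]
            have : b = 1 - a := by linarith
            subst this
            field_simp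
            ring
          beta_reduce
          rw [e5]
          exact this
      exact hsum _
  have := eq_Gamma_of_log_convex hconv hfeq hpos h1 (Set.mem_Ioi.mpr hx)
  rw [← this]

end Pool.Agent.H59R3
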