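import Mathlib

set_option autoImplicit false
open Finset

namespace Pool.Agent.H59R3.NestedEdge

/-! We take `d = 1` and `U = {1, 6}`.  An enumeration of `ℤ` all of whose initial segments are
edge-optimal would give a chain of sets of sizes `1, 2, ..., 13`; we list all possible chains up to
translation and find that none reaches size `13`. -/

/-- the directions -/
def D : Finset ℤ := {1, -1, 6, -6}

/-- the same as a list -/
def adj : List ℤ := [1, -1, 6, -6]

/-- edge boundary of a finite set of integers -/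
def bdF (S : Finset ℤ) : ℕ := ((S ×ˢ D).filter (fun p => p.1 + p.2 ∉ S)).card

/-- edge boundary of a list of integers -/
def bd (l : List ℤ) : ℕ :=
  (l.map (fun x => (adj.filter (fun d => !(l.contains (x + d)))).length)).sum

theorem neg_mem_D : ∀ d ∈ D, -d ∈ D := by decide

theorem neg_mem_adj : ∀ d ∈ D, -d ∈ adj := by decide

theorem bdF_eq_sum (S : Finset ℤ) :
    bdF S = ∑ x ∈ S, (D.filter (fun d => x + d ∉ S)).card := by
  unfold bdF
  rw [Finset.card_filter, Finset.sum_product]
  refine Finset.sum_congr rfl fun x _ => ?_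
  rw [Finset.card_filter]

theorem bdF_toFinset (l : List ℤ) (hl : l.Nodup) : bdF l.toFinset = bd l := by
  rw [bdF_eq_sum, bd, List.sum_toFinset _ hl]
  congr 1
  refine List.map_congr_left fun x _ => ?_
  have hD : D = adj.toFinset := by decide
  rw [hD]
  have hn : (adj.filter (fun d => !(l.contains (x + d)))).Nodup :=
    List.Nodup.filter _ (by decide)
  rw [← List.toFinset_card_of_nodup hn]
  congr 1
  ext d
  simp

theorem bdF_translate (S : Finset ℤ) (t : ℤ) : bdF (S.image (· + t)) = bdF S := by
  rw [bdF_eq_sum, bdF_eq_sum, Finset.sum_image (by intro a _ b _ h; simpa using h)]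
  refine Finset.sum_congr rfl fun x _ => ?_
  congr 1
  ext d
  simp only [Finset.mem_filter, Finset.mem_image, not_exists, not_and]
  constructor
  · rintro ⟨h1, h2⟩
    refine ⟨h1, fun h3 => h2 (x + d) h3 (by ring)⟩
  · rintro ⟨h1, h2⟩
    refine ⟨h1, fun a ha hh => h2 ?_⟩
    have : a = x + d := by linarith
    rwa [← this]

/-- If `x` has no neighbour in `S`, then adding it adds `4` to the boundary. -/
theorem bdF_insert_far (S : Finset ℤ) (x : ℤ) (hx : x ∉ S) (hfar : ∀ d ∈ D, x + d ∉ S) :
    bdF (insert x S) = bdF S + 4 := by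
  rw [bdF_eq_sum, bdF_eq_sum, Finset.sum_insert hx]
  have h1 : (D.filter (fun d => x + d ∉ insert x S)).card = 4 := by
    have : D.filter (fun d => x + d ∉ insert x S) = D := by
      refine Finset.filter_true_of_mem fun d hd => ?_
      rw [Finset.mem_insert, not_or]
      refine ⟨?_, hfar d hd⟩
      intro h
      have : d = 0 := by linarith
      subst this
      revert hd; decide
    rw [this]; decide
  rw [h1]
  have h2 : ∑ y ∈ S, (D.filter (fun d => y + d ∉ insert x S)).card =
      ∑ y ∈ S, (D.filter (fun d => y + d ∉ S)).card := by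
    refine Finset.sum_congr rfl fun y hy => ?_
    congr 1
    refine Finset.filter_congr fun d hd => ?_
    rw [Finset.mem_insert, not_or]
    constructor
    · exact fun h => h.2
    · intro h
      refine ⟨?_, h⟩
      intro h3
      have hneg : -d ∈ D := neg_mem_D d hd
      apply hfar (-d) hneg
      have : x + -d = y := by linarith
      rwa [this]
  rw [h2]; ring

/-- insert into an increasing list, and translate so that the head is `0` -/
def canon (x : ℤ) (l : List ℤ) : List ℤ :=
  let m := l.orderedInsert (· ≤ ·) x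
  m.map (· - m.headD 0)

/-- all one-point extensions of `l` (up to translation) with boundary at most `B`, where the new
point is adjacent to `l` -/
def ext1 (B : ℕ) (l : List ℤ) : List (List ℤ) :=
  ((l.flatMap (fun y => adj.map (fun d => y + d))).filter
    (fun x => !(l.contains x) && decide (bd (x :: l) ≤ B))).map (fun x => canon x l)

def step (B : ℕ) (F : List (List ℤ)) : List (List ℤ) :=
  (F.flatMap (ext1 B)).dedup

/-- the set `T` is a translate of the list `l` -/
def Rel (l : List ℤ) (T : Finset ℤ) : Prop := l.Nodup ∧ ∃ t : ℤ, T = l.toFinset.image (· + t)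

/-- the set `T` is a translate of one of the lists in `F` -/
def InFam (F : List (List ℤ)) (T : Finset ℤ) : Prop := ∃ l ∈ F, Rel l T

theorem Rel.bd_eq {l : List ℤ} {T : Finset ℤ} (h : Rel l T) : bdF T = bd l := by
  obtain ⟨h1, t, rfl⟩ := h
  rw [bdF_translate, bdF_toFinset _ h1]

theorem rel_canon {l : List ℤ} {T : Finset ℤ} {x : ℤ} (t : ℤ) (hl : l.Nodup)
    (hT : T = l.toFinset.image (· + t)) (hx : x ∉ l) :
    Rel (canon x l) (insert (x + t) T) := by
  subst hT
  unfold canon
  generalize hm : (List.orderedInsert (· ≤ ·) x l) = m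
  have hperm : m.Perm (x :: l) := by rw [← hm]; exact List.perm_orderedInsert _ _ _
  have hnd : m.Nodup := hperm.nodup_iff.mpr (List.nodup_cons.mpr ⟨hx, hl⟩)
  refine ⟨?_, m.headD 0 + t, ?_⟩
  · exact List.Nodup.map (fun a b h => by simpa using h) hnd
  · ext z
    simp only [Finset.mem_insert, Finset.mem_image, List.mem_toFinset, List.mem_map]
    constructor
    · rintro (rfl | ⟨a, ha, rfl⟩)
      · exact ⟨x - m.headD 0, ⟨x, hperm.mem_iff.mpr (by simp), rfl⟩, by ring⟩
      · exact ⟨a - m.headD 0, ⟨a, hperm.mem_iff.mpr (by simp [ha]), rfl⟩, by ring⟩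
    · rintro ⟨w, ⟨a, ha, rfl⟩, rfl⟩
      rcases List.mem_cons.mp (hperm.mem_iff.mp ha) with h | h
      · left; rw [h]; ring
      · right; exact ⟨a, h, by ring⟩

/-- the correctness of a step -/
theorem step_correct (B : ℕ) (F : List (List ℤ)) (T : Finset ℤ) (x : ℤ) (hT : InFam F T)
    (hlow : ∀ l ∈ F, B < bd l + 4) (hx : x ∉ T) (hB : bdF (insert x T) ≤ B) :
    InFam (step B F) (insert x T) := by
  obtain ⟨l, hlF, hrel⟩ := hT
  have hbd := hrel.bd_eq
  obtain ⟨hl, t, hTt⟩ := hrel
  -- `x` is adjacent to `T`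
  have hadj : ∃ d ∈ D, x + d ∈ T := by
    by_contra hcon
    push Not at hcon
    have := bdF_insert_far T x hx hcon
    have := hlow l hlF
    omega
  obtain ⟨d, hd, hxd⟩ := hadj
  have hxl : x - t ∉ l := by
    intro h
    apply hx
    rw [hTt, Finset.mem_image]
    exact ⟨x - t, by simpa using h, by ring⟩
  have hmem : x - t ∈ l.flatMap (fun y => adj.map (fun d => y + d)) := by
    rw [List.mem_flatMap]
    rw [hTt, Finset.mem_image] at hxd
    obtain ⟨y, hy, hyx⟩ := hxd
    refine ⟨y, by simpa using hy, ?_⟩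
    rw [List.mem_map]
    refine ⟨-d, ?_, ?_⟩
    · exact neg_mem_adj d hd
    · linarith
  have hrel' : Rel (canon (x - t) l) (insert x T) := by
    have := rel_canon t hl hTt hxl
    rwa [sub_add_cancel] at this
  refine ⟨canon (x - t) l, ?_, hrel'⟩
  unfold step
  rw [List.mem_dedup, List.mem_flatMap]
  refine ⟨l, hlF, ?_⟩
  unfold ext1
  rw [List.mem_map]
  refine ⟨x - t, ?_, rfl⟩
  rw [List.mem_filter]
  refine ⟨hmem, ?_⟩
  have hR2 : Rel ((x - t) :: l) (insert x T) := by
    refine ⟨List.nodup_cons.mpr ⟨hxl, hl⟩, t, ?_⟩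
    rw [List.toFinset_cons, Finset.image_insert, sub_add_cancel, hTt]
  have hb := hR2.bd_eq
  simp only [Bool.and_eq_true, decide_eq_true_eq, Bool.not_eq_true']
  refine ⟨?_, by omega⟩
  simpa using hxl

/-- the witness sets: `W n` has `n` elements -/
def W : ℕ → List ℤ
  | 2 => [0, 1]
  | 3 => [0, 1, 2]
  | 4 => [0, 1, 6, 7]
  | 5 => [0, 1, 2, 6, 7]
  | 6 => [0, 1, 2, 6, 7, 8]
  | 7 => [0, 1, 2, 3, 6, 7, 8]
  | 8 => [0, 1, 2, 3, 6, 7, 8, 9]
  | 9 => [0, 1, 2, 6, 7, 8, 12, 13, 14]
  | 10 => [0, 1, 2, 3, 6, 7, 8, 12, 13, 14]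
  | 11 => [0, 1, 2, 3, 6, 7, 8, 9, 12, 13, 14]
  | 12 => [0, 1, 2, 3, 6, 7, 8, 9, 12, 13, 14, 15]
  | 13 => [0, 1, 2, 3, 4, 5, 6, 7, 8, 9, 10, 11, 12]
  | _ => []

/-- The families of all possible chains. -/
def Fam : ℕ → List (List ℤ)
  | 0 => [[0]]
  | (k + 1) => step (bd (W (k + 2))) (Fam k)

theorem Fam_low : ∀ k < 12, ∀ l ∈ Fam k, bd (W (k + 2)) < bd l + 4 := by
  decide +kernel

theorem Fam_empty : Fam 12 = [] := by decide +kernel

theorem W_nodup : ∀ k < 12, (W (k + 2)).Nodup ∧ (W (k + 2)).length = k + 2 := by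
  decide +kernel

/-- No chain of edge-optimal sets in `ℤ` with generators `1, 6` reaches size `13`. -/
theorem no_chain (x : ℕ → ℤ) (hinj : Function.Injective x)
    (hopt : ∀ k < 12, bdF ((Finset.range (k + 2)).image x) ≤ bd (W (k + 2))) : False := by
  have key : ∀ k ≤ 12, InFam (Fam k) ((Finset.range (k + 1)).image x) := by
    intro k
    induction k with
    | zero =>
      intro _
      refine ⟨[0], by simp [Fam], by simp, x 0, by simp⟩
    | succ k ih =>
      intro hk
      have h1 := ih (by omega)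
      have h2 : (Finset.range (k + 1 + 1)).image x =
          insert (x (k + 1)) ((Finset.range (k + 1)).image x) := by
        rw [Finset.range_add_one, Finset.image_insert]
      have h3 : x (k + 1) ∉ (Finset.range (k + 1)).image x := by
        simp only [Finset.mem_image, Finset.mem_range, not_exists, not_and]
        intro i hi h
        have := hinj h
        omega
      rw [h2]
      refine step_correct _ _ _ _ h1 (Fam_low k (by omega)) h3 ?_
      rw [← h2]
      exact hopt k (by omega)
  obtain ⟨l, hl, _⟩ := key 12 le_rfl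
  rw [Fam_empty] at hl
  simp at hl

/-- the identification of `ℤ` with `Fin 1 → ℤ` -/
def phi (a : ℤ) : Fin 1 → ℤ := fun _ => a

theorem phi_inj : Function.Injective phi := fun a b h => congrFun h 0

theorem phi_apply_zero (v : Fin 1 → ℤ) : phi (v 0) = v := by
  ext i; rw [Subsingleton.elim i 0]; rfl

/-- the generating set -/
def U : Finset (Fin 1 → ℤ) := {phi 1, phi 6}

theorem U_union : U ∪ U.image (fun u => -u) = D.image phi := by
  ext v
  simp only [U, D, Finset.mem_union, Finset.mem_image, Finset.mem_insert, Finset.mem_singleton]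
  constructor
  · rintro ((rfl | rfl) | ⟨w, rfl | rfl, rfl⟩)
    · exact ⟨1, by simp, rfl⟩
    · exact ⟨6, by simp, rfl⟩
    · exact ⟨-1, by simp, by ext i; simp [phi]⟩
    · exact ⟨-6, by simp, by ext i; simp [phi]⟩
  · rintro ⟨a, rfl | rfl | rfl | rfl, rfl⟩
    · left; left; rfl
    · right; exact ⟨phi 1, by simp, by ext i; simp [phi]⟩
    · left; right; rfl
    · right; exact ⟨phi 6, by simp, by ext i; simp [phi]⟩

theorem frozen_bd (T : Finset ℤ) :
    (((T.image phi) ×ˢ (U ∪ U.image (fun u => -u))).filter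
      (fun p => p.1 + p.2 ∉ T.image phi)).card = bdF T := by
  rw [U_union]
  unfold bdF
  symm
  refine Finset.card_bij (fun p _ => (phi p.1, phi p.2)) ?_ ?_ ?_
  · rintro ⟨a, b⟩ hab
    simp only [Finset.mem_filter, Finset.mem_product, Finset.mem_image] at hab ⊢
    refine ⟨⟨⟨a, hab.1.1, rfl⟩, ⟨b, hab.1.2, rfl⟩⟩, ?_⟩
    rintro ⟨c, hc, hcc⟩
    apply hab.2
    have : c = a + b := by
      have := congrFun hcc 0
      simpa [phi] using this
    rwa [← this]
  · rintro ⟨a, b⟩ _ ⟨a', b'⟩ _ h
    simp only [Prod.mk.injEq] at h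
    rw [phi_inj h.1, phi_inj h.2]
  · rintro ⟨v, w⟩ hvw
    simp only [Finset.mem_filter, Finset.mem_product, Finset.mem_image] at hvw
    obtain ⟨⟨⟨a, ha, rfl⟩, ⟨b, hb, rfl⟩⟩, h2⟩ := hvw
    refine ⟨(a, b), ?_, rfl⟩
    simp only [Finset.mem_filter, Finset.mem_product]
    refine ⟨⟨ha, hb⟩, fun h3 => h2 ⟨a + b, h3, ?_⟩⟩
    ext i; simp [phi]

theorem U_closure : AddSubgroup.closure (U : Set (Fin 1 → ℤ)) = ⊤ := by
  rw [eq_top_iff]
  intro v _
  have h1 : phi 1 ∈ AddSubgroup.closure (U : Set (Fin 1 → ℤ)) :=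
    AddSubgroup.subset_closure (by simp [U])
  have h2 := AddSubgroup.zsmul_mem _ h1 (v 0)
  have h3 : v 0 • phi 1 = v := by
    ext i; rw [Subsingleton.elim i 0]; simp [phi]
  rwa [h3] at h2

theorem zero_notMem_U : (0 : Fin 1 → ℤ) ∉ U := by
  simp only [U, Finset.mem_insert, Finset.mem_singleton, not_or]
  constructor
  · intro h; have := congrFun h 0; simp [phi] at this
  · intro h; have := congrFun h 0; simp [phi] at this

/-- The negation of the preceding statement: For every d ≥ 1 and finite generating set U of ℤ^d not containing 0, some enumeration of ℤ^d has every initial segment of size n with edge boundary in the Cayley graph at most that of any n-element set. -/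
theorem not_nested :
    ¬ (∀ d : ℕ, 1 ≤ d → ∀ U : Finset (Fin d → ℤ), (0 : Fin d → ℤ) ∉ U →
      AddSubgroup.closure (U : Set (Fin d → ℤ)) = ⊤ →
      ∃ e : ℕ ≃ (Fin d → ℤ), ∀ n : ℕ, 1 ≤ n → ∀ S : Finset (Fin d → ℤ), S.card = n →
        ((((Finset.range n).image ⇑e) ×ˢ (U ∪ U.image (fun u => -u))).filter
            (fun p => p.1 + p.2 ∉ (Finset.range n).image ⇑e)).card ≤
        ((S ×ˢ (U ∪ U.image (fun u => -u))).filter (fun p => p.1 + p.2 ∉ S)).card) := by
  intro h
  obtain ⟨e, he⟩ := h 1 le_rfl U zero_notMem_U U_closure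
  have hxinj : Function.Injective (fun i => e i 0) := by
    intro i j hij
    apply e.injective
    have h2 : phi (e i 0) = phi (e j 0) := congrArg phi hij
    rwa [phi_apply_zero, phi_apply_zero] at h2
  refine no_chain (fun i => e i 0) hxinj ?_
  intro k hk
  have hS : ((W (k + 2)).toFinset.image phi).card = k + 2 := by
    rw [Finset.card_image_of_injective _ phi_inj, List.toFinset_card_of_nodup (W_nodup k hk).1]
    exact (W_nodup k hk).2
  have h3 := he (k + 2) (by omega) _ hS
  have h4 : (Finset.range (k + 2)).image ⇑e =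
      ((Finset.range (k + 2)).image (fun i => e i 0)).image phi := by
    rw [Finset.image_image]
    refine Finset.image_congr ?_
    intro i _
    exact (phi_apply_zero (e i)).symm
  rw [h4, frozen_bd, frozen_bd, bdF_toFinset _ (W_nodup k hk).1] at h3
  exact h3

end Pool.Agent.H59R3.NestedEdge
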