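import Mathlib

set_option autoImplicit false

namespace Pool.Agent.H59R3

open Finset

/-- The power series `(y - x) / ((1 - x y) (1 - x - y))` in the two variables `x = X 0`,
`y = X 1`. -/
noncomputable def osG : MvPowerSeries (Fin 2) ℚ :=
  (MvPowerSeries.X 1 - MvPowerSeries.X 0) *
    ((1 - MvPowerSeries.X 0 * MvPowerSeries.X 1) *
      (1 - MvPowerSeries.X 0 - MvPowerSeries.X 1))⁻¹

/-- `osc a b` is the coefficient of `x^a y^b` in `(y - x) / ((1 - x y) (1 - x - y))`. -/
noncomputable def osc (a b : ℕ) : ℚ :=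
  MvPowerSeries.coeff (Finsupp.single (0 : Fin 2) a + Finsupp.single (1 : Fin 2) b) osG

/-- the exponent `(a, b)` -/
noncomputable def ex (a b : ℕ) : Fin 2 →₀ ℕ :=
  Finsupp.single (0 : Fin 2) a + Finsupp.single (1 : Fin 2) b

lemma ex_zero (a b : ℕ) : ex a b 0 = a := by simp [ex]
lemma ex_one (a b : ℕ) : ex a b 1 = b := by simp [ex]

lemma ex_le (i j a b : ℕ) : ex i j ≤ ex a b ↔ i ≤ a ∧ j ≤ b := by
  constructor
  · intro h
    have h0 := h 0
    have h1 := h 1
    rw [ex_zero, ex_zero] at h0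
    rw [ex_one, ex_one] at h1
    exact ⟨h0, h1⟩
  · rintro ⟨h0, h1⟩ k
    fin_cases k
    · simpa [ex_zero] using h0
    · simpa [ex_one] using h1

lemma ex_sub (i j a b : ℕ) : ex a b - ex i j = ex (a - i) (b - j) := by
  ext k
  fin_cases k
  · simp [ex]
  · simp [ex]

lemma ex_inj (i j a b : ℕ) : ex i j = ex a b ↔ i = a ∧ j = b := by
  constructor
  · intro h
    have h0 := DFunLike.congr_fun h 0
    have h1 := DFunLike.congr_fun h 1
    rw [ex_zero, ex_zero] at h0
    rw [ex_one, ex_one] at h1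
    exact ⟨h0, h1⟩
  · rintro ⟨rfl, rfl⟩; rfl

lemma coeff_shift (i j a b : ℕ) (φ : MvPowerSeries (Fin 2) ℚ) :
    MvPowerSeries.coeff (ex a b) (MvPowerSeries.monomial (ex i j) (1 : ℚ) * φ) =
      if i ≤ a ∧ j ≤ b then MvPowerSeries.coeff (ex (a - i) (b - j)) φ else 0 := by
  classical
  rw [MvPowerSeries.coeff_monomial_mul]
  by_cases h : i ≤ a ∧ j ≤ b
  · rw [if_pos h, if_pos ((ex_le i j a b).mpr h), one_mul, ex_sub]
  · rw [if_neg h, if_neg (fun h2 => h ((ex_le i j a b).mp h2))]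

lemma osG_mul : (MvPowerSeries.monomial (ex 0 0) (1 : ℚ) - MvPowerSeries.monomial (ex 1 0) (1 : ℚ)
      - MvPowerSeries.monomial (ex 0 1) (1 : ℚ) - MvPowerSeries.monomial (ex 1 1) (1 : ℚ)
      + MvPowerSeries.monomial (ex 2 1) (1 : ℚ) + MvPowerSeries.monomial (ex 1 2) (1 : ℚ)) * osG =
    MvPowerSeries.monomial (ex 0 1) (1 : ℚ) - MvPowerSeries.monomial (ex 1 0) (1 : ℚ) := by
  have hX0 : (MvPowerSeries.X 0 : MvPowerSeries (Fin 2) ℚ) = MvPowerSeries.monomial (ex 1 0) 1 := by
    rw [MvPowerSeries.X_def]; congr 2; simp [ex]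
  have hX1 : (MvPowerSeries.X 1 : MvPowerSeries (Fin 2) ℚ) = MvPowerSeries.monomial (ex 0 1) 1 := by
    rw [MvPowerSeries.X_def]; congr 2; simp [ex]
  have h0 : MvPowerSeries.monomial (ex 0 0) (1 : ℚ) = 1 := by simp [ex]
  have hmul : ∀ i j k l : ℕ, MvPowerSeries.monomial (ex i j) (1 : ℚ) *
      MvPowerSeries.monomial (ex k l) (1 : ℚ) = MvPowerSeries.monomial (ex (i + k) (j + l)) 1 := by
    intro i j k l
    rw [MvPowerSeries.monomial_mul_monomial, one_mul]
    congr 2
    ext m
    fin_cases m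
    · simp [ex]
    · simp [ex]
  have h11 : MvPowerSeries.monomial (ex 1 1) (1 : ℚ) = MvPowerSeries.X 0 * MvPowerSeries.X 1 := by
    rw [hX0, hX1, hmul]
  have h21 : MvPowerSeries.monomial (ex 2 1) (1 : ℚ) =
      MvPowerSeries.X 0 * MvPowerSeries.X 0 * MvPowerSeries.X 1 := by
    rw [hX0, hX1, hmul, hmul]
  have h12 : MvPowerSeries.monomial (ex 1 2) (1 : ℚ) =
      MvPowerSeries.X 0 * MvPowerSeries.X 1 * MvPowerSeries.X 1 := by
    rw [hX0, hX1, hmul, hmul]
  rw [h0, h11, h21, h12, ← hX0, ← hX1]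
  set D : MvPowerSeries (Fin 2) ℚ := (1 - MvPowerSeries.X 0 * MvPowerSeries.X 1) *
      (1 - MvPowerSeries.X 0 - MvPowerSeries.X 1) with hD
  have hc : MvPowerSeries.constantCoeff D ≠ 0 := by
    rw [hD]
    simp
  have h1 : D * D⁻¹ = 1 := MvPowerSeries.mul_inv_cancel D hc
  have h2 : (1 - MvPowerSeries.X 0 - MvPowerSeries.X 1 - MvPowerSeries.X 0 * MvPowerSeries.X 1 +
      MvPowerSeries.X 0 * MvPowerSeries.X 0 * MvPowerSeries.X 1 +
      MvPowerSeries.X 0 * MvPowerSeries.X 1 * MvPowerSeries.X 1 :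
        MvPowerSeries (Fin 2) ℚ) = D := by
    rw [hD]; ring
  rw [h2]
  unfold osG
  rw [← hD]
  calc D * ((MvPowerSeries.X 1 - MvPowerSeries.X 0) * D⁻¹)
      = (MvPowerSeries.X 1 - MvPowerSeries.X 0) * (D * D⁻¹) := by ring
    _ = _ := by rw [h1, mul_one]

/-- the recurrence -/
lemma osc_rec (a b : ℕ) :
    osc a b - (if 1 ≤ a then osc (a - 1) b else 0) - (if 1 ≤ b then osc a (b - 1) else 0)
      - (if 1 ≤ a ∧ 1 ≤ b then osc (a - 1) (b - 1) else 0)
      + (if 2 ≤ a ∧ 1 ≤ b then osc (a - 2) (b - 1) else 0)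
      + (if 1 ≤ a ∧ 2 ≤ b then osc (a - 1) (b - 2) else 0) =
    (if a = 0 ∧ b = 1 then 1 else 0) - (if a = 1 ∧ b = 0 then 1 else 0) := by
  classical
  have h := congrArg (MvPowerSeries.coeff (ex a b)) osG_mul
  simp only [add_mul, sub_mul, map_add, map_sub, coeff_shift] at h
  simp only [Nat.zero_le, true_and, and_true, if_true, Nat.sub_zero] at h
  rw [MvPowerSeries.coeff_monomial, MvPowerSeries.coeff_monomial] at h
  simp only [ex_inj] at h
  exact h

lemma osc_00 : osc 0 0 = 0 := by simpa using osc_rec 0 0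

lemma osc_01 : osc 0 1 = 1 := by
  have := osc_rec 0 1
  simp [osc_00] at this
  exact this

lemma osc_0_succ (b : ℕ) : osc 0 (b + 1) = 1 := by
  induction b with
  | zero => exact osc_01
  | succ b ih =>
    have := osc_rec 0 (b + 1 + 1)
    simp [ih] at this
    linarith

lemma osc_10 : osc 1 0 = -1 := by
  have := osc_rec 1 0
  simp [osc_00] at this
  exact this

lemma osc_11 : osc 1 1 = 0 := by
  have := osc_rec 1 1
  simp [osc_00, osc_01, osc_10] at this
  linarith

lemma osc_1 (b : ℕ) : osc 1 (b + 2) = b + 2 := by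
  induction b with
  | zero =>
    have := osc_rec 1 2
    have h2 := osc_0_succ 1
    have h1 := osc_0_succ 0
    norm_num [osc_00, osc_11] at this h1 h2 ⊢
    rw [h1, h2] at this
    linarith
  | succ b ih =>
    have := osc_rec 1 (b + 1 + 2)
    have h3 := osc_0_succ (b + 2)
    have h2 := osc_0_succ (b + 1)
    have h1 := osc_0_succ b
    simp only [show b + 1 + 2 - 1 = b + 2 by omega, show b + 1 + 2 - 2 = b + 1 by omega,
      show (1 : ℕ) - 1 = 0 by rfl] at this
    rw [show b + 1 + 2 = b + 2 + 1 by ring, h3, show b + 2 = b + 1 + 1 by ring, h2, h1] at this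
    rw [show b + 1 + 1 = b + 2 by ring, ih] at this
    norm_num at this
    push_cast
    rw [show b + 1 + 2 = b + 2 + 1 by ring]
    linarith

lemma osc_rec2 (a b : ℕ) :
    osc (a + 2) (b + 2) - osc (a + 1) (b + 2) - osc (a + 2) (b + 1) - osc (a + 1) (b + 1)
      + osc a (b + 1) + osc (a + 1) b = 0 := by
  have := osc_rec (a + 2) (b + 2)
  simpa using this

lemma osc_skew_aux (n : ℕ) : ∀ a b : ℕ, a + b ≤ n → osc a b + osc b a = 0 := by
  induction n with
  | zero =>
    intro a b h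
    have ha : a = 0 := by omega
    have hb : b = 0 := by omega
    subst ha hb
    rw [osc_00]; norm_num
  | succ n ih =>
    intro a b hab
    have h1 := osc_rec a b
    have h2 := osc_rec b a
    have e1 : ∀ p : Prop, ∀ [Decidable p] (x y z : ℕ) (w : ℕ), (p → x + y ≤ n) →
        (if p then osc x y else 0) + (if p then osc y x else 0) = 0 := by
      intro p _ x y _ _ hp
      by_cases h : p
      · rw [if_pos h, if_pos h]; exact ih x y (hp h)
      · rw [if_neg h, if_neg h]; norm_num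
    have a1 := e1 (1 ≤ a) (a - 1) b 0 0 (fun h => by omega)
    have a2 := e1 (1 ≤ b) a (b - 1) 0 0 (fun h => by omega)
    have a3 := e1 (1 ≤ a ∧ 1 ≤ b) (a - 1) (b - 1) 0 0 (fun h => by omega)
    have a4 := e1 (2 ≤ a ∧ 1 ≤ b) (a - 2) (b - 1) 0 0 (fun h => by omega)
    have a5 := e1 (1 ≤ a ∧ 2 ≤ b) (a - 1) (b - 2) 0 0 (fun h => by omega)
    simp only [and_comm (a := 1 ≤ b) (b := 1 ≤ a), and_comm (a := 2 ≤ b) (b := 1 ≤ a),
      and_comm (a := 1 ≤ b) (b := 2 ≤ a), and_comm (a := b = 0) (b := a = 1),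
      and_comm (a := b = 1) (b := a = 0)] at h2
    linarith

lemma osc_skew (a b : ℕ) : osc a b = -osc b a := by
  have := osc_skew_aux (a + b) a b le_rfl
  linarith

/-! ### The involution `z ↦ 1 - z` -/

/-- `(T s) a = ∑_i (-1)^i C(a,i) s i` -/
def bT (s : ℕ → ℚ) (a : ℕ) : ℚ := ∑ i ∈ range (a + 1), (-1 : ℚ) ^ i * (a.choose i) * s i

lemma bT_ext {s : ℕ → ℚ} {a N : ℕ} (h : a < N) :
    bT s a = ∑ i ∈ range N, (-1 : ℚ) ^ i * (a.choose i) * s i := by
  unfold bT
  refine Finset.sum_subset (by intro i hi; rw [Finset.mem_range] at *; omega) ?_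
  intro i _ hi
  rw [Finset.mem_range, not_lt] at hi
  rw [Nat.choose_eq_zero_of_lt (by omega)]
  simp

lemma bT_zero (s : ℕ → ℚ) : bT s 0 = s 0 := by simp [bT]

lemma bT_succ (s : ℕ → ℚ) (a : ℕ) : bT s (a + 1) = bT s a - bT (fun i => s (i + 1)) a := by
  rw [bT_ext (N := a + 2) (by omega : a + 1 < a + 2), Finset.sum_range_succ',
    bT_ext (N := a + 2) (by omega : a < a + 2), Finset.sum_range_succ' (n := a + 1)]
  unfold bT
  have e : ∀ i, (-1 : ℚ) ^ (i + 1) * ((a + 1).choose (i + 1) : ℚ) * s (i + 1) =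
      (-1 : ℚ) ^ (i + 1) * (a.choose (i + 1) : ℚ) * s (i + 1) -
        (-1 : ℚ) ^ i * (a.choose i : ℚ) * s (i + 1) := by
    intro i
    rw [Nat.choose_succ_succ]
    push_cast
    ring
  rw [Finset.sum_congr rfl fun i _ => e i, Finset.sum_sub_distrib]
  simp only [Nat.choose_zero_right]
  ring

lemma bT_add (s t : ℕ → ℚ) (a : ℕ) : bT (fun i => s i + t i) a = bT s a + bT t a := by
  unfold bT
  rw [← Finset.sum_add_distrib]
  exact Finset.sum_congr rfl fun i _ => by ring

lemma bT_sub (s t : ℕ → ℚ) (a : ℕ) : bT (fun i => s i - t i) a = bT s a - bT t a := by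
  unfold bT
  rw [← Finset.sum_sub_distrib]
  exact Finset.sum_congr rfl fun i _ => by ring

lemma bT_const0 (a : ℕ) : bT (fun _ => 0) a = 0 := by simp [bT]

/-- the two-variable transform -/
def bD (w : ℕ → ℕ → ℚ) (a b : ℕ) : ℚ := bT (fun i => bT (fun j => w i j) b) a

/-- transform of the shifted array -/
noncomputable def bS (p q a b : ℕ) : ℚ := bD (fun i j => osc (i + p) (j + q)) a b

lemma bS_left (p q a b : ℕ) : bS (p + 1) q a b = bS p q a b - bS p q (a + 1) b := by
  unfold bS bD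
  have := bT_succ (fun i => bT (fun j => osc (i + p) (j + q)) b) a
  have e : (fun i => bT (fun j => osc (i + (p + 1)) (j + q)) b) =
      fun i => bT (fun j => osc (i + 1 + p) (j + q)) b := by
    ext i; rw [show i + (p + 1) = i + 1 + p by ring]
  rw [e]
  linarith

lemma bS_right (p q a b : ℕ) : bS p (q + 1) a b = bS p q a b - bS p q a (b + 1) := by
  unfold bS bD
  rw [← bT_sub]
  congr 1
  ext i
  have := bT_succ (fun j => osc (i + p) (j + q)) b
  have e : (fun j => osc (i + p) (j + (q + 1))) = fun j => osc (i + p) (j + 1 + q) := by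
    ext j; rw [show j + (q + 1) = j + 1 + q by ring]
  rw [e]
  linarith

lemma bS_rel (a b : ℕ) : bS 2 2 a b - bS 1 2 a b - bS 2 1 a b - bS 1 1 a b + bS 0 1 a b
    + bS 1 0 a b = 0 := by
  have h : bD (fun i j => osc (i + 2) (j + 2) - osc (i + 1) (j + 2) - osc (i + 2) (j + 1)
      - osc (i + 1) (j + 1) + osc i (j + 1) + osc (i + 1) j) a b = 0 := by
    unfold bD
    simp only [osc_rec2, bT_const0]
  unfold bD at h
  simp only [bT_add, bT_sub] at h
  unfold bS bD
  simpa using h

/-- the transformed array -/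
noncomputable def osd (a b : ℕ) : ℚ := bS 0 0 a b

lemma osd_rec (a b : ℕ) :
    osd (a + 2) (b + 2) - osd (a + 1) (b + 2) - osd (a + 2) (b + 1) - osd (a + 1) (b + 1)
      + osd a (b + 1) + osd (a + 1) b = 0 := by
  have h := bS_rel a b
  simp only [bS_left 1, bS_left 0, bS_right _ 1, bS_right _ 0] at h
  unfold osd
  linarith

lemma bT_one (a : ℕ) : bT (fun _ => 1) (a + 1) = 0 := by
  rw [bT_succ]; ring

lemma bT_osc0 (b : ℕ) : bT (fun j => osc 0 j) (b + 1) = -1 := by
  induction b with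
  | zero => rw [bT_succ, bT_zero, bT_zero, osc_00, zero_add, osc_01]; norm_num
  | succ b ih =>
    rw [bT_succ, ih]
    simp only [osc_0_succ]
    rw [bT_one]; norm_num

lemma osd_0 (b : ℕ) : osd 0 b = -osc 0 b := by
  unfold osd bS bD
  rw [bT_zero]
  simp only [add_zero]
  cases b with
  | zero => rw [bT_zero, osc_00]; norm_num
  | succ b => rw [bT_osc0, osc_0_succ]

lemma bT_id0 : bT (fun j => (j : ℚ)) 1 = -1 := by
  simp [bT, Finset.sum_range_succ]

lemma bT_id (b : ℕ) : bT (fun j => (j : ℚ)) (b + 2) = 0 := by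
  induction b with
  | zero => simp [bT, Finset.sum_range_succ]
  | succ b ih =>
    rw [show b + 1 + 2 = b + 2 + 1 by ring, bT_succ, ih]
    have e : (fun i : ℕ => ((i + 1 : ℕ) : ℚ)) = fun i : ℕ => (i : ℚ) + 1 := by
      ext i; push_cast; ring
    rw [e, bT_add, ih, show b + 2 = b + 1 + 1 by ring, bT_one]
    norm_num

/-- indicator of `0` -/
def del0 : ℕ → ℚ := fun j => if j = 0 then 1 else 0

/-- indicator of `1` -/
def del1 : ℕ → ℚ := fun j => if j = 1 then 1 else 0

lemma bT_del0 (b : ℕ) : bT del0 b = 1 := by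
  induction b with
  | zero => simp [bT_zero, del0]
  | succ b ih =>
    rw [bT_succ, ih]
    have e : (fun i : ℕ => del0 (i + 1)) = fun _ => 0 := by ext i; simp [del0]
    rw [e, bT_const0]; norm_num

lemma bT_del1 (b : ℕ) : bT del1 b = -b := by
  induction b with
  | zero => simp [bT_zero, del1]
  | succ b ih =>
    rw [bT_succ, ih]
    have e : (fun i : ℕ => del1 (i + 1)) = del0 := by ext i; simp [del0, del1]
    rw [e, bT_del0]; push_cast; ring

lemma osc_1_eq : (fun j => osc 1 j) = fun j : ℕ => ((j : ℚ) - del0 j) - del1 j := by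
  ext j
  match j with
  | 0 => rw [osc_10]; simp [del0, del1]
  | 1 => rw [osc_11]; simp [del0, del1]
  | (j + 2) => rw [osc_1]; simp [del0, del1]

lemma osd_1 (b : ℕ) : osd 1 b = -osc 1 b := by
  have h : osd 1 b = bT (fun j => osc 0 j) b - bT (fun j => osc 1 j) b := by
    unfold osd bS bD
    simp only [add_zero]
    rw [show (1 : ℕ) = 0 + 1 by rfl, bT_succ, bT_zero, bT_zero]
  rw [h, osc_1_eq, bT_sub, bT_sub, bT_del0, bT_del1]
  match b with
  | 0 => rw [bT_zero, bT_zero, osc_00, osc_10]; norm_num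
  | 1 => rw [bT_id0, bT_osc0 0, osc_11]; norm_num
  | (b + 2) => rw [bT_id, bT_osc0 (b + 1), osc_1]; push_cast; ring

lemma osd_skew (a b : ℕ) : osd a b = -osd b a := by
  unfold osd bS bD bT
  simp only [add_zero, Finset.mul_sum]
  rw [Finset.sum_comm, ← Finset.sum_neg_distrib]
  refine Finset.sum_congr rfl fun j _ => ?_
  rw [← Finset.sum_neg_distrib]
  refine Finset.sum_congr rfl fun i _ => ?_
  rw [osc_skew i j]
  ring

/-- **Anti-invariance** of the array under the substitution `z ↦ 1 - z`. -/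
theorem osd_eq : ∀ a b : ℕ, osd a b = -osc a b := by
  have key : ∀ n a b : ℕ, a + b ≤ n → osd a b = -osc a b := by
    intro n
    induction n with
    | zero =>
      intro a b h
      have ha : a = 0 := by omega
      subst ha
      exact osd_0 b
    | succ n ih =>
      intro a b h
      match a, b, h with
      | 0, b, _ => exact osd_0 b
      | 1, b, _ => exact osd_1 b
      | (a + 2), 0, _ => rw [osd_skew, osd_0, osc_skew (a + 2) 0]
      | (a + 2), 1, _ => rw [osd_skew, osd_1, osc_skew (a + 2) 1]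
      | (a + 2), (b + 2), h =>
        have h1 := osd_rec a b
        have h2 := osc_rec2 a b
        have i1 := ih (a + 1) (b + 2) (by omega)
        have i2 := ih (a + 2) (b + 1) (by omega)
        have i3 := ih (a + 1) (b + 1) (by omega)
        have i4 := ih a (b + 1) (by omega)
        have i5 := ih (a + 1) b (by omega)
        rw [i1, i2, i3, i4, i5] at h1
        linarith
  intro a b
  exact key (a + b) a b le_rfl

/-- explicit form of `osd` -/
lemma osd_sum (a b N : ℕ) (ha : a < N) (hb : b < N) :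
    ∑ i ∈ range N, ∑ j ∈ range N, ((-1 : ℚ) ^ i * (a.choose i)) * osc i j *
      ((-1 : ℚ) ^ j * (b.choose j)) = -osc a b := by
  rw [← osd_eq a b]
  unfold osd bS bD
  rw [bT_ext ha]
  refine Finset.sum_congr rfl fun i _ => ?_
  rw [bT_ext hb, Finset.mul_sum]
  refine Finset.sum_congr rfl fun j _ => ?_
  simp only [add_zero]
  ring

end Pool.Agent.H59R3
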