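import Mathlib

set_option autoImplicit false

namespace Pool.Agent.H59R3

open Finset Matrix

variable {R : Type*} [CommRing R]

/-- the signed sum over all permutations, `2^m m!` times the Pfaffian -/
def pfSum (m : ℕ) (A : Matrix (Fin (m * 2)) (Fin (m * 2)) R) : R :=
  ∑ σ : Equiv.Perm (Fin (m * 2)), ((Equiv.Perm.sign σ : ℤ) : R) *
    ∏ i : Fin m, A (σ (finProdFinEquiv (i, 0))) (σ (finProdFinEquiv (i, 1)))

/-- pairs of indices -/
def pairEquiv (m : ℕ) (ι : Type*) : (Fin m → ι × ι) ≃ (Fin (m * 2) → ι) where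
  toFun f := fun j => if (finProdFinEquiv.symm j).2 = 0 then (f (finProdFinEquiv.symm j).1).1
    else (f (finProdFinEquiv.symm j).1).2
  invFun g := fun i => (g (finProdFinEquiv (i, 0)), g (finProdFinEquiv (i, 1)))
  left_inv f := by ext i <;> simp
  right_inv g := by
    ext j
    obtain ⟨⟨i, b⟩, rfl⟩ := (finProdFinEquiv (m := m) (n := 2)).surjective j
    fin_cases b <;> simp

lemma pairEquiv_zero (m : ℕ) (ι : Type*) (f : Fin m → ι × ι) (i : Fin m) :
    pairEquiv m ι f (finProdFinEquiv (i, 0)) = (f i).1 := by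
  have h := Equiv.symm_apply_apply (finProdFinEquiv (m := m) (n := 2)) (i, 0)
  unfold pairEquiv
  simp only [Equiv.coe_fn_mk]
  rw [h]
  rfl

lemma pairEquiv_one (m : ℕ) (ι : Type*) (f : Fin m → ι × ι) (i : Fin m) :
    pairEquiv m ι f (finProdFinEquiv (i, 1)) = (f i).2 := by
  have h := Equiv.symm_apply_apply (finProdFinEquiv (m := m) (n := 2)) (i, 1)
  unfold pairEquiv
  simp only [Equiv.coe_fn_mk]
  rw [h]
  rfl

lemma prod_pairs (m : ℕ) {M : Type*} [CommMonoid M] (h : Fin (m * 2) → M) :
    ∏ j, h j = ∏ i : Fin m, (h (finProdFinEquiv (i, 0)) * h (finProdFinEquiv (i, 1))) := by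
  rw [← finProdFinEquiv.prod_comp, Fintype.prod_prod_type]
  refine Finset.prod_congr rfl fun i _ => ?_
  rw [Fin.prod_univ_two]

theorem pfSum_congr (m : ℕ) (S A : Matrix (Fin (m * 2)) (Fin (m * 2)) R) :
    pfSum m (S * A * Sᵀ) = S.det * pfSum m A := by
  classical
  -- expand the products
  have h1 : ∀ σ : Equiv.Perm (Fin (m * 2)),
      ∏ i : Fin m, (S * A * Sᵀ) (σ (finProdFinEquiv (i, 0))) (σ (finProdFinEquiv (i, 1))) =
      ∑ g : Fin (m * 2) → Fin (m * 2),
        (∏ i : Fin m, A (g (finProdFinEquiv (i, 0))) (g (finProdFinEquiv (i, 1)))) *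
        ∏ j, S (σ j) (g j) := by
    intro σ
    have h2 : ∀ i : Fin m,
        (S * A * Sᵀ) (σ (finProdFinEquiv (i, 0))) (σ (finProdFinEquiv (i, 1))) =
        ∑ p : Fin (m * 2) × Fin (m * 2), A p.1 p.2 *
          (S (σ (finProdFinEquiv (i, 0))) p.1 * S (σ (finProdFinEquiv (i, 1))) p.2) := by
      intro i
      rw [Fintype.sum_prod_type, Finset.sum_comm]
      simp only [Matrix.mul_apply, Matrix.transpose_apply, Finset.sum_mul]
      refine Finset.sum_congr rfl fun l _ => Finset.sum_congr rfl fun k _ => ?_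
      ring
    simp_rw [h2]
    rw [Finset.prod_univ_sum, Fintype.piFinset_univ]
    rw [← (pairEquiv m (Fin (m * 2))).sum_comp]
    refine Finset.sum_congr rfl fun f _ => ?_
    rw [Finset.prod_mul_distrib, prod_pairs]
    congr 1
    · refine Finset.prod_congr rfl fun i _ => ?_
      rw [pairEquiv_zero, pairEquiv_one]
    · refine Finset.prod_congr rfl fun i _ => ?_
      rw [pairEquiv_zero, pairEquiv_one]
  unfold pfSum
  simp_rw [h1]
  have h3 : ∑ σ : Equiv.Perm (Fin (m * 2)), ((Equiv.Perm.sign σ : ℤ) : R) *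
      ∑ g : Fin (m * 2) → Fin (m * 2),
        (∏ i : Fin m, A (g (finProdFinEquiv (i, 0))) (g (finProdFinEquiv (i, 1)))) *
        ∏ j, S (σ j) (g j) =
      ∑ g : Fin (m * 2) → Fin (m * 2),
        (∏ i : Fin m, A (g (finProdFinEquiv (i, 0))) (g (finProdFinEquiv (i, 1)))) *
        (S.submatrix id g).det := by
    simp_rw [Finset.mul_sum]
    rw [Finset.sum_comm]
    refine Finset.sum_congr rfl fun g _ => ?_
    rw [Matrix.det_apply, Finset.mul_sum]
    refine Finset.sum_congr rfl fun σ _ => ?_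
    simp only [Matrix.submatrix_apply, id, Units.smul_def, zsmul_eq_mul]
    ring
  rw [h3]
  -- only permutations contribute
  have h4 : ∀ g : Fin (m * 2) → Fin (m * 2), ¬ Function.Bijective g →
      (S.submatrix id g).det = 0 := by
    intro g hg
    have hni : ¬ Function.Injective g := fun h => hg (Finite.injective_iff_bijective.mp h)
    simp only [Function.Injective, not_forall] at hni
    obtain ⟨a, b, hab, hne⟩ := hni
    refine Matrix.det_zero_of_column_eq hne ?_
    intro k
    simp [Matrix.submatrix_apply, hab]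
  rw [Finset.mul_sum]
  rw [← Finset.sum_filter_add_sum_filter_not (s := univ)
    (p := fun g : Fin (m * 2) → Fin (m * 2) => Function.Bijective g)]
  have h5 : ∑ g ∈ univ.filter (fun g : Fin (m * 2) → Fin (m * 2) => ¬ Function.Bijective g),
      (∏ i : Fin m, A (g (finProdFinEquiv (i, 0))) (g (finProdFinEquiv (i, 1)))) *
        (S.submatrix id g).det = 0 := by
    refine Finset.sum_eq_zero fun g hg => ?_
    rw [h4 g (Finset.mem_filter.mp hg).2, mul_zero]
  rw [h5, add_zero]
  refine Finset.sum_bij (fun g hg => Equiv.ofBijective g (Finset.mem_filter.mp hg).2) ?_ ?_ ?_ ?_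
  · intro g _; exact Finset.mem_univ _
  · intro g1 h1 g2 h2 h
    have := congrArg (fun (e : Equiv.Perm (Fin (m * 2))) => (e : Fin (m * 2) → Fin (m * 2))) h
    simpa using this
  · intro τ _
    refine ⟨τ, ?_, ?_⟩
    · rw [Finset.mem_filter]; exact ⟨Finset.mem_univ _, τ.bijective⟩
    · ext i; rfl
  · intro g hg
    set τ := Equiv.ofBijective g (Finset.mem_filter.mp hg).2 with hτ
    have hτg : ∀ j, τ j = g j := fun j => rfl
    have e1 : (S.submatrix id g).det = ((Equiv.Perm.sign τ : ℤ) : R) * S.det := by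
      have : S.submatrix id g = S.submatrix id τ := rfl
      rw [this, Matrix.det_permute']
    rw [e1]
    simp only [hτg]
    ring

end Pool.Agent.H59R3
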